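import Pool.Agent.KIL.StmtsB

/-! Row GAR of block KIL: the noise off `D` does not matter (helper40). -/

set_option autoImplicit false

open MeasureTheory ProbabilityTheory

open scoped ENNReal NNReal

noncomputable section

namespace Pool.Agent.KIL.H40

open Pool.Agent.ANP (Cfg gm)

theorem gar : GarStmt := by
  intro X _ _ T D s q hs hq
  have h1 : MeasurePreserving (fun (ζ : X → ℝ) (c : D) => ζ c)
      (gm (fun _ => 0) (T.kv D)) (Measure.pi fun c : D => gaussianReal 0 (T.kv D c)) := by
    have h0 := measurePreserving_fst.comp (measurePreserving_piEquivPiSubtypeProd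
      (fun x => gaussianReal 0 (T.kv D x)) (fun x => x ∈ D))
    rw [Subsingleton.elim (Subtype.fintype fun x => x ∈ D) (Finset.Subtype.fintype D)] at h0
    exact h0
  have h2 : (Measure.pi fun c : D => gaussianReal 0 (T.kv D c)) =
      Measure.pi fun _ : D => gaussianReal 0 s.toNNReal := by
    congr 1
    funext c
    have h3 : T.kv D c = s.toNNReal := by
      rw [Cfg.kv, if_pos c.2, ← hs c c.2, Real.toNNReal_coe]
    rw [h3]
  rw [← h2]
  exact h1.lintegral_comp hq

end Pool.Agent.KIL.H40
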